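import Pool.Agent.PlanarCentres.Sym
import Pool.Agent.PlanarCentres.Lyap
import Pool.Agent.PlanarCentres.Encard
import Pool.Agent.LogCentres.CrInv

/-!
# Centres of planar polynomial systems with an involutive symmetry

Let `X = (P, Q)` be a polynomial vector field of degree at most `n` on the plane.  If `X` commutes
or anticommutes with an affine involution `s`, then at most `(n² + 1) / 2` (rounded down) centres,
degenerate ones included, are moved by `s`; this bounds the number of all centres if `X` commutes
with `s` or if `s` is a point reflection.  Any centrally symmetric set of nondegenerate centres of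
an arbitrary system of degree at most `n` has at most that many points.
-/

namespace Pool.Agent.Results.MP_eebd99_an.CentralSymmetry

open MvPolynomial Pool.Agent.PlanarCentres Pool.Agent.LogCentres

/-- The vector field `X = (P, Q)` is centrally symmetric about the point `a`:
`X(2a - x) = X(x)` for all `x`, or `X(2a - x) = -X(x)` for all `x`. -/
def SymmetricAbout (P Q : MvPolynomial (Fin 2) ℝ) (a : Fin 2 → ℝ) : Prop :=
  ∃ e : ℝ, (e = 1 ∨ e = -1) ∧
    ∀ x : Fin 2 → ℝ, eval (a + a - x) P = e * eval x P ∧ eval (a + a - x) Q = e * eval x Q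

/-- The vector `X(x)` of the vector field `X = (P, Q)` at the point `x`. -/
noncomputable def vec (P Q : MvPolynomial (Fin 2) ℝ) (x : Fin 2 → ℝ) : Fin 2 → ℝ :=
  ![eval x P, eval x Q]

/-- Let `P, Q` be real polynomials of degree at most `n` in two variables, `n ≥ 1`.
(1) Let `s` be an affine map of the plane with `s(s(x)) = x` for all `x` which is not the
identity, let `L` be its linear part and let `e = 1` or `e = -1`.  If `X(s(x)) = e L X(x)` for all
`x`, `X = (P, Q)`, then there are at most `⌊(n² + 1) / 2⌋` centres `p` of `x' = P, y' = Q` (the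
linearisation may be zero or nilpotent) with `s(p) ≠ p`; if `e = 1` or `L = -1` there are at most
`⌊(n² + 1) / 2⌋` centres at all.
(2) If the system is centrally symmetric about `a`, then the set of all its centres and of all its
zeros with positive Jacobian determinant has at most `⌊(n² + 1) / 2⌋` elements.
(3) If `S` is a set of centres at which the linearisation is invertible, invariant under
`x ↦ 2a - x`, then `S` has at most `⌊(n² + 1) / 2⌋` elements, for any system. -/
theorem result (n : ℕ) (hn : 1 ≤ n) (P Q : MvPolynomial (Fin 2) ℝ)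
    (hP : P.totalDegree ≤ n) (hQ : Q.totalDegree ≤ n) :
    (∀ (s : (Fin 2 → ℝ) →ᵃ[ℝ] (Fin 2 → ℝ)) (e : ℝ),
      (∀ x, s (s x) = x) → (∃ x, s x ≠ x) → (e = 1 ∨ e = -1) →
      (∀ x, vec P Q (s x) = e • s.linear (vec P Q x)) →
      {p : Fin 2 → ℝ | IsCentre P Q p ∧ (e = 1 ∨ (∀ x, s.linear x = -x) ∨ s p ≠ p)}.encard ≤
        (((n ^ 2 + 1) / 2 : ℕ) : ℕ∞)) ∧
    (∀ a : Fin 2 → ℝ, SymmetricAbout P Q a →
      {p : Fin 2 → ℝ | IsCentre P Q p ∨ (eval p P = 0 ∧ eval p Q = 0 ∧ 0 < jac P Q p)}.encard ≤
        (((n ^ 2 + 1) / 2 : ℕ) : ℕ∞)) ∧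
    ∀ (a : Fin 2 → ℝ) (S : Set (Fin 2 → ℝ)), (∀ p ∈ S, IsCentre P Q p ∧ jac P Q p ≠ 0) →
      (∀ p ∈ S, a + a - p ∈ S) → S.encard ≤ (((n ^ 2 + 1) / 2 : ℕ) : ℕ∞) := by
  classical
  refine ⟨?_, ?_, ?_⟩
  · intro s e hinv hne he hX
    apply encard_le_of_finset
    intro F hF
    exact card_involution hn hP hQ s hinv hne he hX F (fun p hp => hF p hp)
  · rintro a ⟨e, he, h⟩
    apply encard_le_of_finset
    intro F hF
    exact card_symm_all hn hP hQ a he h F (fun p hp => hF p hp)
  · intro a S hS h
    have hJ : ∀ p ∈ S, eval p P = 0 ∧ eval p Q = 0 ∧ 0 < jac P Q p := fun p hp =>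
      ⟨(hS p hp).1.1, (hS p hp).1.2.1, (centre_jac (hS p hp).1 (hS p hp).2).2⟩
    apply encard_le_of_finset
    intro F hF
    have h1 := card_symm_set hn hP hQ a (F ∪ F.image (fun p => a + a - p)) (by
      intro p hp
      rcases Finset.mem_union.mp hp with hp | hp
      · exact hJ p (hF p hp)
      · obtain ⟨q, hq, rfl⟩ := Finset.mem_image.mp hp
        exact hJ _ (h q (hF q hq))) (by
      intro p hp
      rcases Finset.mem_union.mp hp with hp | hp
      · exact Finset.mem_union_right _ (Finset.mem_image_of_mem _ hp)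
      · obtain ⟨q, hq, rfl⟩ := Finset.mem_image.mp hp
        rw [sub_sub_cancel]; exact Finset.mem_union_left _ hq)
    exact (Finset.card_le_card Finset.subset_union_left).trans h1

end Pool.Agent.Results.MP_eebd99_an.CentralSymmetry
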