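import Pool.Agent.LogCentres.AllC
import Pool.Agent.LogCentres.SfFin
import Pool.Agent.PlanarCentres.Encard

/-!
# Centres of Darboux integrable systems

A planar polynomial system of degree `n` with a nonconstant first integral `∏ |fᵢ| ^ λᵢ`, the `fᵢ`
real polynomials of any degrees and the `λᵢ` real numbers (for example a rational function), has at
most `⌊(n² + 1) / 2⌋` centres, degenerate ones included.

A system with a first integral `∏ |fᵢ| ^ λᵢ · exp (g / ∏ fᵢ ^ nᵢ)`, the `nᵢ` natural numbers,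
`∑ deg fᵢ + max (deg g, ∑ nᵢ deg fᵢ) ≤ n + 1`, has at most `⌊(n² + 1) / 2⌋` centres.
-/

namespace Pool.Agent.Results.MP_eebd99_an.DarbouxSystems

open MvPolynomial Pool.Agent.PlanarCentres Pool.Agent.LogCentres Topology

/-- `∑ᵢ cᵢ (∏_{j ≠ i} fⱼ) ∂fᵢ/∂xₖ` -/
noncomputable def logSum {ι : Type} [Fintype ι] [DecidableEq ι]
    (f : ι → MvPolynomial (Fin 2) ℝ) (c : ι → ℝ) (k : Fin 2) : MvPolynomial (Fin 2) ℝ :=
  ∑ i, c i • ((∏ j ∈ Finset.univ.erase i, f j) * pderiv k (f i))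

/-- With `Φ = ∏ fᵢ ^ nᵢ` and `H = ∑ λᵢ log |fᵢ| + g / Φ` this is the polynomial
`Φ (∏ fᵢ) ∂H/∂xₖ`. -/
noncomputable def darbouxD {ι : Type} [Fintype ι] [DecidableEq ι]
    (f : ι → MvPolynomial (Fin 2) ℝ) (lam : ι → ℝ) (nn : ι → ℕ) (g : MvPolynomial (Fin 2) ℝ)
    (k : Fin 2) : MvPolynomial (Fin 2) ℝ :=
  (∏ i, f i ^ nn i) * logSum f lam k + (∏ i, f i) * pderiv k g -
    g * logSum f (fun i => (nn i : ℝ)) k

/-- the Darboux function `∏ |fᵢ| ^ λᵢ · exp (g / ∏ fᵢ ^ nᵢ)` -/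
noncomputable def darbouxF {ι : Type} [Fintype ι] (f : ι → MvPolynomial (Fin 2) ℝ)
    (lam : ι → ℝ) (nn : ι → ℕ) (g : MvPolynomial (Fin 2) ℝ) (x : Fin 2 → ℝ) : ℝ :=
  (∏ i, |eval x (f i)| ^ lam i) * Real.exp (eval x g / ∏ i, eval x (f i) ^ nn i)

/-- the set of the centres of the system `x' = D₁`, `y' = -D₀`, `D = darbouxD f lam nn g` -/
def centreSet {ι : Type} [Fintype ι] [DecidableEq ι] (f : ι → MvPolynomial (Fin 2) ℝ)
    (lam : ι → ℝ) (nn : ι → ℕ) (g : MvPolynomial (Fin 2) ℝ) : Set (Fin 2 → ℝ) :=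
  {p | IsCentre (darbouxD f lam nn g 1) (-darbouxD f lam nn g 0) p}

/-- the set of the strict local extrema of the Darboux function at which the `fᵢ` with `λᵢ ≠ 0` or
`nᵢ ≠ 0` are nonzero -/
def extremumSet {ι : Type} [Fintype ι] (f : ι → MvPolynomial (Fin 2) ℝ)
    (lam : ι → ℝ) (nn : ι → ℕ) (g : MvPolynomial (Fin 2) ℝ) : Set (Fin 2 → ℝ) :=
  {p | (∀ i, lam i ≠ 0 ∨ nn i ≠ 0 → eval p (f i) ≠ 0) ∧
    ((∀ᶠ q in 𝓝[≠] p, darbouxF f lam nn g q < darbouxF f lam nn g p) ∨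
      ∀ᶠ q in 𝓝[≠] p, darbouxF f lam nn g p < darbouxF f lam nn g q)}

/-- the set of the isolated points of the union of the curves `fᵢ = 0` with `λᵢ ≠ 0` or
`nᵢ ≠ 0` -/
def isolatedSet {ι : Type} (f : ι → MvPolynomial (Fin 2) ℝ)
    (lam : ι → ℝ) (nn : ι → ℕ) : Set (Fin 2 → ℝ) :=
  {p | (∃ i, (lam i ≠ 0 ∨ nn i ≠ 0) ∧ eval p (f i) = 0) ∧
    ∀ᶠ q in 𝓝[≠] p, ∀ i, lam i ≠ 0 ∨ nn i ≠ 0 → eval q (f i) ≠ 0}

theorem darbouxF_eq {ι : Type} [Fintype ι] (f : ι → MvPolynomial (Fin 2) ℝ)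
    (lam : ι → ℝ) (nn : ι → ℕ) (g : MvPolynomial (Fin 2) ℝ) {x : Fin 2 → ℝ}
    (hx : ∀ i, lam i ≠ 0 ∨ nn i ≠ 0 → eval x (f i) ≠ 0) :
    darbouxF f lam nn g x = Real.exp (expH f lam nn g x) := by
  rw [darbouxF, expH, Real.exp_add, logF, Real.exp_sum]
  congr 1
  refine Finset.prod_congr rfl fun i _ => ?_
  by_cases h : lam i = 0
  · rw [h, Real.rpow_zero, zero_mul, Real.exp_zero]
  · rw [Real.rpow_def_of_pos (abs_pos.2 (hx i (Or.inl h))), mul_comm]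

theorem darbouxD_eq {ι : Type} [Fintype ι] [DecidableEq ι]
    (f : ι → MvPolynomial (Fin 2) ℝ) (lam : ι → ℝ) (nn : ι → ℕ) (g : MvPolynomial (Fin 2) ℝ) :
    darbouxD f lam nn g = expD f lam nn g := rfl

theorem nontriv_open {ι : Type} [Fintype ι] (f : ι → MvPolynomial (Fin 2) ℝ)
    (lam : ι → ℝ) (nn : ι → ℕ) {p : Fin 2 → ℝ}
    (hp : ∀ i, lam i ≠ 0 ∨ nn i ≠ 0 → eval p (f i) ≠ 0) :
    ∀ᶠ q in 𝓝 p, ∀ i, lam i ≠ 0 ∨ nn i ≠ 0 → eval q (f i) ≠ 0 := by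
  rw [Filter.eventually_all]
  intro i
  by_cases h : lam i ≠ 0 ∨ nn i ≠ 0
  · exact ((MvPolynomial.continuous_eval (f i)).continuousAt.eventually_ne (hp i h)).mono
      fun q hq _ => hq
  · exact Filter.Eventually.of_forall fun q h' => absurd h' h

theorem bound_all {ι : Type} [Fintype ι] [DecidableEq ι]
    (n : ℕ) (f : ι → MvPolynomial (Fin 2) ℝ) (lam : ι → ℝ) (nn : ι → ℕ)
    (g : MvPolynomial (Fin 2) ℝ) (hf : ∀ i, f i ≠ 0)
    (hn : ∑ i, (f i).totalDegree +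
      max g.totalDegree (∑ i, nn i * (f i).totalDegree) ≤ n + 1) :
    (centreSet f lam nn g ∪ extremumSet f lam nn g ∪ isolatedSet f lam nn).encard ≤
      (((n ^ 2 + 1) / 2 : ℕ) : ℕ∞) := by
  apply encard_le_of_finset
  intro S hS
  have := all_bound f lam nn g hf hn S (fun p hp => by
    rcases hS p hp with (h | h) | h
    · left
      rw [← darbouxD_eq]
      exact h
    · right; left
      obtain ⟨h1, h2⟩ := h
      refine ⟨h1, ?_⟩
      have hev : ∀ᶠ q in 𝓝[≠] p, ∀ i, lam i ≠ 0 ∨ nn i ≠ 0 → eval q (f i) ≠ 0 :=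
        mem_nhdsWithin_of_mem_nhds (nontriv_open f lam nn h1)
      refine h2.imp (fun h => ?_) (fun h => ?_)
      · filter_upwards [h, hev] with q hq hq'
        rw [darbouxF_eq f lam nn g hq', darbouxF_eq f lam nn g h1] at hq
        exact Real.exp_lt_exp.1 hq
      · filter_upwards [h, hev] with q hq hq'
        rw [darbouxF_eq f lam nn g hq', darbouxF_eq f lam nn g h1] at hq
        exact Real.exp_lt_exp.1 hq
    · right; right
      exact h)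
  omega

theorem bound_reduced {ι : Type} [Fintype ι] [DecidableEq ι]
    (n : ℕ) (f : ι → MvPolynomial (Fin 2) ℝ) (lam : ι → ℝ) (hf : ∀ i, f i ≠ 0)
    (P Q : MvPolynomial (Fin 2) ℝ) (hP : P.totalDegree ≤ n) (hQ : Q.totalDegree ≤ n)
    (hH : P * logSum f lam 0 + Q * logSum f lam 1 = 0)
    (hne : logSum f lam 0 ≠ 0 ∨ logSum f lam 1 ≠ 0) :
    {p : Fin 2 → ℝ | IsCentre P Q p}.encard ≤ (((n ^ 2 + 1) / 2 : ℕ) : ℕ∞) := by
  apply encard_le_of_finset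
  intro S hS
  have := reduced_all (n := n) f lam hf P Q hP hQ hH
    (fun h => hne.elim (fun h1 => h1 h.1) (fun h1 => h1 h.2)) S hS
  have h2 : n ^ 2 = n * n := sq n
  omega

/-- Let `fᵢ` be finitely many nonzero real polynomials in two variables and `λᵢ` real numbers.

(1) Let `P`, `Q` be real polynomials of degree at most `n` such that `∏ |fᵢ| ^ λᵢ` is a first
integral of `x' = P`, `y' = Q` and is not locally constant.  This system has at most
`⌊(n² + 1) / 2⌋` centres.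

(2) Let `nᵢ` be natural numbers and `g` a real polynomial with
`∑ deg fᵢ + max (deg g, ∑ nᵢ deg fᵢ) ≤ n + 1`.  There are at most `⌊(n² + 1) / 2⌋` points that are
a centre of the system with the first integral `F = ∏ |fᵢ| ^ λᵢ · exp (g / ∏ fᵢ ^ nᵢ)`, or a strict
local extremum of `F` off the curves `fᵢ = 0` with `λᵢ ≠ 0` or `nᵢ ≠ 0`, or an isolated point of the
union of these curves. -/
theorem result (n : ℕ) {ι : Type} [Fintype ι] [DecidableEq ι]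
    (f : ι → MvPolynomial (Fin 2) ℝ) (lam : ι → ℝ) (hf : ∀ i, f i ≠ 0) :
    (∀ P Q : MvPolynomial (Fin 2) ℝ, P.totalDegree ≤ n → Q.totalDegree ≤ n →
      P * logSum f lam 0 + Q * logSum f lam 1 = 0 →
      (logSum f lam 0 ≠ 0 ∨ logSum f lam 1 ≠ 0) →
      {p : Fin 2 → ℝ | IsCentre P Q p}.encard ≤ (((n ^ 2 + 1) / 2 : ℕ) : ℕ∞)) ∧
    (∀ (nn : ι → ℕ) (g : MvPolynomial (Fin 2) ℝ),
      ∑ i, (f i).totalDegree + max g.totalDegree (∑ i, nn i * (f i).totalDegree) ≤ n + 1 →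
      (centreSet f lam nn g ∪ extremumSet f lam nn g ∪ isolatedSet f lam nn).encard ≤
        (((n ^ 2 + 1) / 2 : ℕ) : ℕ∞)) :=
  ⟨fun P Q hP hQ hH hne => bound_reduced n f lam hf P Q hP hQ hH hne,
    fun nn g hn => bound_all n f lam nn g hf hn⟩

end Pool.Agent.Results.MP_eebd99_an.DarbouxSystems
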