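import Pool.Agent.PlanarCentres.Cofactor
import Pool.Agent.PlanarCentres.Encard
import Pool.Agent.LogCentres.IvCount
import Pool.Agent.LogCentres.IvDiv
import Pool.Agent.LogCentres.LiAll

/-!
# Centres of systems with invariant algebraic curves

Part one.  If linearly independent polynomials `K 0, ..., K (k-1)` of degree at most `n - 1`
vanish on a set `S` of centres of a system of degree at most `n`, and if `k ≤ 2` or all the
centres in `S` are nondegenerate, then `|S| + k ≤ n (n + 1) / 2`.  Here `K i` may be any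
polynomial in the ideal generated by the divergence and by the cofactors of the real invariant
algebraic curves.

Part two.  A planar polynomial system of degree at most `n`, `n ≥ 3`, with a real invariant
straight line has at most `n (n + 1) / 2 - 2` centres.
-/

namespace Pool.Agent.Results.MP_eebd99_an.InvariantCurves

open MvPolynomial Pool.Agent.PlanarCentres

/-- `K` is the cofactor of a real invariant algebraic curve `f = 0` of the system
`x' = P(x, y)`, `y' = Q(x, y)`: `f` is not the zero polynomial and `P f_x + Q f_y = K f`. -/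
def IsCofactor (P Q K : MvPolynomial (Fin 2) ℝ) : Prop :=
  ∃ f : MvPolynomial (Fin 2) ℝ, f ≠ 0 ∧ P * pderiv 0 f + Q * pderiv 1 f = K * f

/-- The ideal generated by the divergence of the system and by the cofactors of its real
invariant algebraic curves. -/
noncomputable def centreIdeal (P Q : MvPolynomial (Fin 2) ℝ) : Ideal (MvPolynomial (Fin 2) ℝ) :=
  Ideal.span ({pderiv 0 P + pderiv 1 Q} ∪ {K | IsCofactor P Q K})

theorem independent (n : ℕ) (hn : 1 ≤ n) (P Q : MvPolynomial (Fin 2) ℝ)
    (hP : P.totalDegree ≤ n) (hQ : Q.totalDegree ≤ n)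
    (S : Set (Fin 2 → ℝ)) (hS : ∀ p ∈ S, IsCentre P Q p)
    (k : ℕ) (hk : k ≤ 2 ∨ ∀ p ∈ S, jac P Q p ≠ 0)
    (K : Fin k → MvPolynomial (Fin 2) ℝ) (hlin : LinearIndependent ℝ K)
    (hdeg : ∀ i, (K i).totalDegree ≤ n - 1)
    (hK : ∀ i, (∀ p ∈ S, eval p (K i) = 0) ∨ K i ∈ centreIdeal P Q) :
    S.encard + (k : ℕ∞) ≤ ((n * (n + 1) / 2 : ℕ) : ℕ∞) := by
  classical
  have hKS : ∀ i, ∀ p ∈ S, eval p (K i) = 0 := by
    intro i p hp
    rcases hK i with h | h
    · exact h p hp
    · have hle : centreIdeal P Q ≤ RingHom.ker (eval p) := by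
        rw [centreIdeal, Ideal.span_le]
        rintro F (hF | ⟨f, hf, hF⟩)
        · rw [Set.mem_singleton_iff] at hF
          rw [SetLike.mem_coe, RingHom.mem_ker, hF, map_add]
          exact Pool.Agent.LogCentres.centre_div (hS p hp)
        · rw [SetLike.mem_coe, RingHom.mem_ker]
          exact cofactor_zero (hS p hp) hf hF
      exact (RingHom.mem_ker).mp (hle h)
  have hcard : ∀ F : Finset (Fin 2 → ℝ), (∀ p ∈ F, p ∈ S) →
      F.card + k ≤ n * (n + 1) / 2 := by
    intro F hF
    rcases hk with hk | hk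
    · exact Pool.Agent.LogCentres.card_centres hn hk hP hQ F (fun p hp => hS p (hF p hp)) K hlin
        hdeg (fun i p hp => hKS i p (hF p hp))
    · exact card_add_le hn hP hQ F (fun p hp =>
        ⟨(hS p (hF p hp)).1, (hS p (hF p hp)).2.1,
          (centre_jac (hS p (hF p hp)) (hk p (hF p hp))).2⟩) K hlin hdeg
        (fun i p hp => hKS i p (hF p hp))
  have h0 : k ≤ n * (n + 1) / 2 := by
    have := hcard ∅ (fun p hp => absurd hp (Finset.notMem_empty p))
    simpa using this
  have h1 := encard_le_of_finset (N := n * (n + 1) / 2 - k) (S := S) (fun F hF => by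
    have := hcard F hF
    omega)
  calc S.encard + (k : ℕ∞)
      ≤ ((n * (n + 1) / 2 - k : ℕ) : ℕ∞) + (k : ℕ∞) := by gcongr
    _ = ((n * (n + 1) / 2 : ℕ) : ℕ∞) := by
        rw [← Nat.cast_add, Nat.sub_add_cancel h0]

theorem line (n : ℕ) (hn : 3 ≤ n) (P Q : MvPolynomial (Fin 2) ℝ)
    (hP : P.totalDegree ≤ n) (hQ : Q.totalDegree ≤ n)
    (a b c : ℝ) (hab : a ≠ 0 ∨ b ≠ 0)
    (hinv : ∀ x : Fin 2 → ℝ, a * x 0 + b * x 1 + c = 0 → a * eval x P + b * eval x Q = 0) :
    {p : Fin 2 → ℝ | IsCentre P Q p}.encard ≤ ((n * (n + 1) / 2 - 2 : ℕ) : ℕ∞) := by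
  apply encard_le_of_finset
  intro F hF
  have := Pool.Agent.LogCentres.line_centres hn hP hQ a b c hab hinv F hF
  omega

/-- **Part one.**  Let `P, Q` be real polynomials of degree at most `n` in two variables, `n ≥ 1`,
let `S` be a set of centres of `x' = P, y' = Q`, and let `K 0, ..., K (k-1)` be linearly
independent real polynomials of degree at most `n - 1`, each of which vanishes on `S` or lies in
the ideal generated by the divergence and the cofactors of the real invariant algebraic curves of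
the system.  If `k ≤ 2`, or if the linearisation is invertible at all the centres in `S`, then
`|S| + k ≤ n (n + 1) / 2`.
**Part two.**  Let `P, Q` be real polynomials of degree at most `n` in two variables, `n ≥ 3`, and
suppose that the straight line `a x + b y + c = 0` is invariant under the system
`x' = P, y' = Q`: at each of its points the vector `(P, Q)` is parallel to the line.  Then the
system has at most `n (n + 1) / 2 - 2` centres. -/
theorem result :
    (∀ (n : ℕ) (P Q : MvPolynomial (Fin 2) ℝ) (S : Set (Fin 2 → ℝ)) (k : ℕ)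
      (K : Fin k → MvPolynomial (Fin 2) ℝ), 1 ≤ n → P.totalDegree ≤ n → Q.totalDegree ≤ n →
      (∀ p ∈ S, IsCentre P Q p) → (k ≤ 2 ∨ ∀ p ∈ S, jac P Q p ≠ 0) → LinearIndependent ℝ K →
      (∀ i, (K i).totalDegree ≤ n - 1) →
      (∀ i, (∀ p ∈ S, eval p (K i) = 0) ∨ K i ∈ centreIdeal P Q) →
      S.encard + (k : ℕ∞) ≤ ((n * (n + 1) / 2 : ℕ) : ℕ∞)) ∧
    (∀ (n : ℕ) (P Q : MvPolynomial (Fin 2) ℝ) (a b c : ℝ), 3 ≤ n → P.totalDegree ≤ n →
      Q.totalDegree ≤ n → (a ≠ 0 ∨ b ≠ 0) →
      (∀ x : Fin 2 → ℝ, a * x 0 + b * x 1 + c = 0 → a * eval x P + b * eval x Q = 0) →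
      {p : Fin 2 → ℝ | IsCentre P Q p}.encard ≤ ((n * (n + 1) / 2 - 2 : ℕ) : ℕ∞)) :=
  ⟨fun n P Q S k K hn hP hQ hS hk hlin hdeg hK =>
    independent n hn P Q hP hQ S hS k hk K hlin hdeg hK,
  fun n P Q a b c hn hP hQ hab hinv => line n hn P Q hP hQ a b c hab hinv⟩

end Pool.Agent.Results.MP_eebd99_an.InvariantCurves
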