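import Mathlib
import Pool.Agent.RevC.Poly

/-!
Time-reversible planar quartic vector fields have at most eight centres.
-/

open MvPolynomial

namespace Pool.Agent.Results.MP_eebd99_an.ReversibleQuartics

/-- Let `X = (P, Q)` be a polynomial vector field of degree at most `4` on the plane, invariant
under `(x, y, t) ↦ (x, -y, -t)`, with finitely many equilibria and with divergence not identically
zero. Then `X` has at most `8` centres. -/
theorem result (P Q : MvPolynomial (Fin 2) ℝ) (hP : P.totalDegree ≤ 4) (hQ : Q.totalDegree ≤ 4)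
    (hrev : ∀ x y : ℝ, RevC.field P Q (x, -y) =
      (-(RevC.field P Q (x, y)).1, (RevC.field P Q (x, y)).2))
    (hfin : {z : ℝ × ℝ | RevC.field P Q z = 0}.Finite)
    (hdiv : pderiv 0 P + pderiv 1 Q ≠ 0) :
    {z : ℝ × ℝ | RevC.IsCenter (RevC.field P Q) z}.ncard ≤ 8 :=
  RevC.reversible_quartic P Q hP hQ hrev hfin hdiv

end Pool.Agent.Results.MP_eebd99_an.ReversibleQuartics
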